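import Pool.Agent.P.MP_710d87_nt.Lattice

/-!
Extension of an integral orthogonal family by one more vector.
-/

namespace Pool.Agent.P.MP_710d87_nt

open Matrix Module

lemma cast_dot {N : ℕ} (x y : Fin N → ℤ) :
    ((x ⬝ᵥ y : ℤ) : ℚ) = (fun i => (x i : ℚ)) ⬝ᵥ (fun i => (y i : ℚ)) := by
  simp [dotProduct]

lemma frame_dot {N : ℕ} (lam : ℚ) (c : Fin N → Fin N → ℚ)
    (hc : ∀ i j, c i ⬝ᵥ c j = if i = j then lam else 0) (m n : Fin N → ℚ) :
    (∑ j, m j • c j) ⬝ᵥ (∑ j, n j • c j) = lam * (m ⬝ᵥ n) := by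
  rw [sum_dotProduct]
  simp only [dotProduct_sum, smul_dotProduct, dotProduct_smul, hc, smul_eq_mul]
  simp only [dotProduct, Finset.mul_sum]
  refine Finset.sum_congr rfl fun i _ => ?_
  rw [Finset.sum_eq_single i]
  · simp; ring
  · intro j _ hj
    simp [Ne.symm hj]
  · simp

lemma extend_of_frame {N k : ℕ} (hk : k < N) (hN : N ≤ k + 6) (lam : ℤ) (hlam : 0 < lam)
    (c0 : Fin N → Fin N → ℚ) (hc0 : ∀ i j, c0 i ⬝ᵥ c0 j = if i = j then (lam : ℚ) else 0)
    (v : Fin k → Fin N → ℤ) (hv : ∀ i j, v i ⬝ᵥ v j = if i = j then lam else 0) :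
    ∃ u : Fin N → ℤ, u ⬝ᵥ u = lam ∧ ∀ i, v i ⬝ᵥ u = 0 := by
  classical
  have hl : (lam : ℚ) ≠ 0 := by exact_mod_cast hlam.ne'
  obtain ⟨c, hc, hcv⟩ := witt hk.le (lam : ℚ) c0 hc0 (fun j i => (v j i : ℚ)) (fun i j => by
    rw [← cast_dot, hv]; split_ifs <;> simp)
  let U8 : Submodule ℤ (Fin N → ℤ) :=
    { carrier := {y | ∃ m m' : Fin N → ℤ,
        (fun i => (y i : ℚ)) = ∑ j, (m j : ℚ) • c j + fun i => (lam : ℚ) * m' i}
      add_mem' := by
        rintro y y' ⟨m, m', h⟩ ⟨n, n', h'⟩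
        refine ⟨m + n, m' + n', ?_⟩
        ext i
        have h1 := congrFun h i
        have h2 := congrFun h' i
        simp only [Pi.add_apply, Finset.sum_apply, Pi.smul_apply, smul_eq_mul, Int.cast_add,
          add_mul, Finset.sum_add_distrib] at h1 h2 ⊢
        rw [h1, h2]; ring
      zero_mem' := ⟨0, 0, by ext i; simp⟩
      smul_mem' := by
        rintro r y ⟨m, m', h⟩
        refine ⟨r • m, r • m', ?_⟩
        ext i
        have h1 := congrFun h i
        simp only [Pi.add_apply, Finset.sum_apply, Pi.smul_apply, smul_eq_mul, Int.cast_mul,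
          mul_assoc, ← Finset.mul_sum] at h1 ⊢
        rw [h1]; ring }
  have hU8 : ∀ y, y ∈ U8 ↔ ∃ m m' : Fin N → ℤ,
        (fun i => (y i : ℚ)) = ∑ j, (m j : ℚ) • c j + fun i => (lam : ℚ) * m' i := fun _ => Iff.rfl
  have hint : ∀ y ∈ U8, ∀ y' ∈ U8, lam ∣ y ⬝ᵥ y' := by
    rintro y ⟨m, m', h⟩ y' ⟨n, n', h'⟩
    refine ⟨m ⬝ᵥ n + (y - lam • m') ⬝ᵥ n' + m' ⬝ᵥ y', ?_⟩
    have h1 : (fun i => ((y - lam • m') i : ℚ)) = ∑ j, (m j : ℚ) • c j := by
      ext i
      have h1 := congrFun h i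
      simp only [Pi.add_apply] at h1
      simp [h1]
    have h2 : ∀ (p : Fin N → ℚ) (q : Fin N → ℤ),
        p ⬝ᵥ (fun i => (lam : ℚ) * q i) = lam * (p ⬝ᵥ (fun i => (q i : ℚ))) := by
      intro p q
      simp only [dotProduct, Finset.mul_sum]
      exact Finset.sum_congr rfl fun i _ => by ring
    have h3 : ((y ⬝ᵥ y' : ℤ) : ℚ) = ((lam * (m ⬝ᵥ n + (y - lam • m') ⬝ᵥ n' + m' ⬝ᵥ y') : ℤ) : ℚ) := by
      rw [Int.cast_mul, Int.cast_add, Int.cast_add, cast_dot, cast_dot, cast_dot, cast_dot, h1]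
      conv_lhs => rw [h, add_dotProduct, dotProduct_comm (fun i => (lam : ℚ) * m' i), h2,
        dotProduct_comm (fun i => (y' i : ℚ))]
      conv_lhs => enter [1]; rw [h', dotProduct_add, frame_dot _ c hc, h2]
      ring
    exact_mod_cast h3
  have hvU : ∀ j, v j ∈ U8 := by
    intro j
    refine ⟨Pi.single (Fin.castLE hk.le j) 1, 0, ?_⟩
    rw [Finset.sum_eq_single (Fin.castLE hk.le j)]
    · ext i; simp [hcv]
    · intro l _ hl
      simp [hl]
    · simp
  let W : Submodule ℤ (Fin N → ℤ) :=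
    { carrier := {y | ∀ j, v j ⬝ᵥ y = 0}
      add_mem' := by
        intro y y' h h' j
        rw [dotProduct_add, h j, h' j, add_zero]
      zero_mem' := by intro j; simp
      smul_mem' := by
        intro r y h j
        rw [dotProduct_smul, h j, smul_zero] }
  have hW : ∀ y, y ∈ W ↔ ∀ j, v j ⬝ᵥ y = 0 := fun _ => Iff.rfl
  obtain ⟨n, b⟩ := Submodule.basisOfPid (Pi.basisFun ℤ (Fin N)) (U8 ⊓ W)
  let u : Fin n → Fin N → ℤ := fun i => (b i : Fin N → ℤ)
  have huU : ∀ i, u i ∈ U8 := fun i => (b i).2.1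
  have huW : ∀ i j, v j ⬝ᵥ u i = 0 := fun i => (b i).2.2
  have huli : ∀ x : Fin n → ℤ, ∑ i, x i • u i = 0 → x = 0 := by
    intro x hx
    have h1 : ∑ i, x i • b i = 0 := by
      apply Subtype.ext
      simpa [u] using hx
    exact funext (Fintype.linearIndependent_iff.mp b.linearIndependent x h1)
  have husp : ∀ y ∈ U8, y ∈ W → ∃ x : Fin n → ℤ, y = ∑ i, x i • u i := by
    intro y h1 h2
    refine ⟨fun i => b.repr ⟨y, h1, h2⟩ i, ?_⟩
    have h3 := congrArg Subtype.val (b.sum_repr ⟨y, h1, h2⟩)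
    rw [Submodule.coe_sum] at h3
    exact h3.symm
  have hdvd : ∀ i j, lam ∣ u i ⬝ᵥ u j := fun i j => hint _ (huU i) _ (huU j)
  choose g hg using hdvd
  let G : Matrix (Fin n) (Fin n) ℤ := Matrix.of g
  have hGs : G.IsSymm := by
    ext i j
    simp only [G, Matrix.transpose_apply, Matrix.of_apply]
    have h1 := hg i j
    rw [dotProduct_comm, hg j i] at h1
    exact mul_left_cancel₀ hlam.ne' h1
  have hG1 : ∀ (x : Fin n → ℤ) (i : Fin n), lam * (G *ᵥ x) i = u i ⬝ᵥ ∑ j, x j • u j := by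
    intro x i
    simp only [Matrix.mulVec, dotProduct_sum, dotProduct_smul, hg, G, smul_eq_mul]
    simp only [dotProduct, Finset.mul_sum, Matrix.of_apply]
    exact Finset.sum_congr rfl fun j _ => by ring
  have hG2 : ∀ x : Fin n → ℤ, lam * (x ⬝ᵥ G *ᵥ x) = (∑ j, x j • u j) ⬝ᵥ ∑ j, x j • u j := by
    intro x
    rw [sum_dotProduct]
    simp only [smul_dotProduct, ← hG1, smul_eq_mul]
    simp only [dotProduct, Finset.mul_sum]
    exact Finset.sum_congr rfl fun j _ => by ring
  have hpos : ∀ x : Fin n → ℤ, x ≠ 0 → 0 < x ⬝ᵥ G *ᵥ x := by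
    intro x hx
    have h1 : (∑ j, x j • u j) ≠ 0 := fun h => hx (huli x h)
    have h2 : 0 < (∑ j, x j • u j) ⬝ᵥ ∑ j, x j • u j := by
      rcases lt_or_eq_of_le (show 0 ≤ (∑ j, x j • u j) ⬝ᵥ ∑ j, x j • u j from
        Finset.sum_nonneg fun i _ => mul_self_nonneg _) with h | h
      · exact h
      · exact absurd (dotProduct_self_eq_zero.mp h.symm) h1
    rw [← hG2] at h2
    exact (mul_pos_iff_of_pos_left hlam).mp h2
  have hdetpos : 0 < G.det := by
    have h1 := hermite_int n G 1 hGs one_pos (fun x hx => hpos x hx)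
    have h2 : (0 : ℚ) < (3 / 4 : ℚ) ^ (n.choose 2) * ((1 : ℤ) : ℚ) ^ n := by positivity
    exact_mod_cast lt_of_lt_of_le h2 h1
  have hsurj : ∀ t : Fin n → ℤ, ∃ x : Fin n → ℤ, G *ᵥ x = t := by
    intro t
    let GQ : Matrix (Fin n) (Fin n) ℚ := G.map (Int.castRingHom ℚ)
    have hGQ : IsUnit GQ.det := by
      have : GQ.det = (G.det : ℚ) := ((Int.castRingHom ℚ).map_det G).symm
      rw [this, isUnit_iff_ne_zero]
      exact_mod_cast hdetpos.ne'
    let xq : Fin n → ℚ := GQ⁻¹ *ᵥ (fun i => (t i : ℚ))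
    have hxq : GQ *ᵥ xq = fun i => (t i : ℚ) := by
      simp only [xq, Matrix.mulVec_mulVec, Matrix.mul_nonsing_inv _ hGQ, Matrix.one_mulVec]
    let z : Fin N → ℚ := ∑ j, xq j • (fun l => (u j l : ℚ))
    have hzu : ∀ i, z ⬝ᵥ (fun l => (u i l : ℚ)) = lam * t i := by
      intro i
      have h1 := congrFun hxq i
      rw [← h1]
      simp only [z, sum_dotProduct, smul_dotProduct, ← cast_dot, smul_eq_mul]
      simp only [Matrix.mulVec, dotProduct, GQ, Matrix.map_apply, G, Matrix.of_apply,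
        Finset.mul_sum]
      refine Finset.sum_congr rfl fun j _ => ?_
      have h2 := hg i j
      rw [dotProduct_comm] at h2
      simp only [dotProduct] at h2
      rw [h2]
      simp; ring
    have hzv : ∀ i, z ⬝ᵥ (fun l => (v i l : ℚ)) = 0 := by
      intro i
      simp only [z, sum_dotProduct, smul_dotProduct, ← cast_dot, smul_eq_mul]
      refine Finset.sum_eq_zero fun j _ => ?_
      rw [dotProduct_comm, huW]; simp
    have hzU : ∀ y ∈ U8, ∃ s : ℤ, z ⬝ᵥ (fun i => (y i : ℚ)) = lam * s := by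
      intro y hy
      have h1 : ∀ j, lam ∣ v j ⬝ᵥ y := fun j => hint _ (hvU j) _ hy
      choose r hr using h1
      have h2 : y - ∑ j, r j • v j ∈ U8 :=
        U8.sub_mem hy (U8.sum_mem fun j _ => U8.smul_mem _ (hvU j))
      have h3 : y - ∑ j, r j • v j ∈ W := by
        intro j
        rw [dotProduct_sub, dotProduct_sum, hr, Finset.sum_eq_single j]
        · rw [dotProduct_smul, hv]; simp [mul_comm]
        · intro l _ hl
          rw [dotProduct_smul, hv]; simp [Ne.symm hl]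
        · simp
      obtain ⟨x, hx⟩ := husp _ h2 h3
      refine ⟨x ⬝ᵥ t, ?_⟩
      have h4 : (fun i => (y i : ℚ)) = ∑ j, (r j : ℚ) • (fun l => (v j l : ℚ)) +
          ∑ j, (x j : ℚ) • (fun l => (u j l : ℚ)) := by
        ext i
        have h5 := congrFun hx i
        simp only [Pi.sub_apply, Finset.sum_apply, Pi.smul_apply, smul_eq_mul] at h5
        simp only [Pi.add_apply, Finset.sum_apply, Pi.smul_apply, smul_eq_mul]
        have h6 : y i = ∑ j, r j * v j i + ∑ j, x j * u j i := by linarith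
        rw [h6]; push_cast; ring
      rw [h4, dotProduct_add, dotProduct_sum, dotProduct_sum]
      simp only [dotProduct_smul, hzv, hzu, smul_eq_mul]
      simp only [dotProduct, mul_zero, Finset.sum_const_zero, zero_add, Int.cast_sum,
        Int.cast_mul, Finset.mul_sum]
      exact Finset.sum_congr rfl fun j _ => by ring
    have hzint : ∀ i, ∃ s : ℤ, z i = s := by
      intro i
      obtain ⟨s, hs⟩ := hzU (Pi.single i lam) ⟨0, Pi.single i 1, by
        ext l
        by_cases h : l = i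
        · subst h; simp
        · simp [h]⟩
      refine ⟨s, ?_⟩
      have h1 : (fun l => ((Pi.single i lam : Fin N → ℤ) l : ℚ)) = Pi.single i (lam : ℚ) := by
        ext l
        by_cases h : l = i
        · subst h; simp
        · simp [h]
      rw [h1, dotProduct_single, mul_comm] at hs
      exact mul_left_cancel₀ hl hs
    choose z' hz' using hzint
    have hzz : (fun i => (z' i : ℚ)) = z := funext fun i => (hz' i).symm
    obtain ⟨m, m', hm⟩ := double_dual lam hlam c hc z (fun y m h => hzU y ⟨m, 0, by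
      rw [h]; ext i; simp⟩)
    have h1 : z' ∈ U8 := ⟨m, m', by rw [hzz, hm]⟩
    have h2 : z' ∈ W := by
      intro j
      have h3 := hzv j
      rw [← hzz, ← cast_dot, dotProduct_comm] at h3
      exact_mod_cast h3
    obtain ⟨x, hx⟩ := husp _ h1 h2
    refine ⟨x, funext fun i => ?_⟩
    have h3 := hG1 x i
    rw [← hx] at h3
    have h4 := hzu i
    rw [← hzz, ← cast_dot, dotProduct_comm, ← h3] at h4
    have h5 : lam * (G *ᵥ x) i = lam * t i := by exact_mod_cast h4
    exact mul_left_cancel₀ hlam.ne' h5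
  have hdet : G.det = 1 := by
    choose f hf using hsurj
    let H : Matrix (Fin n) (Fin n) ℤ := Matrix.of fun i j => f (Pi.single j 1) i
    have h1 : G * H = 1 := by
      ext i j
      have := congrFun (hf (Pi.single j 1)) i
      simp only [Matrix.mulVec, dotProduct] at this
      simp only [Matrix.mul_apply, H, Matrix.of_apply, this, Matrix.one_apply, Pi.single_apply]
    have h2 : G.det * H.det = 1 := by rw [← Matrix.det_mul, h1, Matrix.det_one]
    exact Int.eq_one_of_mul_eq_one_right hdetpos.le h2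
  have hn6 : n ≤ 6 := by
    have h1 : LinearIndependent ℤ (Sum.elim u v) := by
      rw [Fintype.linearIndependent_iff]
      intro f hf
      rw [Fintype.sum_sum_type] at hf
      simp only [Sum.elim_inl, Sum.elim_inr] at hf
      have h2 : ∀ j, f (Sum.inr j) = 0 := by
        intro j
        have h3 := congrArg (fun y => v j ⬝ᵥ y) hf
        simp only [dotProduct_add, dotProduct_sum, dotProduct_smul, huW, hv, dotProduct_zero,
          smul_eq_mul, mul_zero, Finset.sum_const_zero, zero_add, mul_ite, Finset.sum_ite_eq,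
          Finset.mem_univ, if_true] at h3
        exact (mul_eq_zero.mp h3).resolve_right hlam.ne'
      simp only [h2, zero_smul, Finset.sum_const_zero, add_zero] at hf
      have h3 := huli _ hf
      rintro (i | j)
      · exact congrFun h3 i
      · exact h2 j
    have h2 := h1.fintype_card_le_finrank
    simp at h2
    omega
  have hn1 : 1 ≤ n := by
    obtain ⟨D, hD⟩ := IsLocalization.exist_integer_multiples_of_finite (nonZeroDivisors ℤ)
      (c ⟨k, hk⟩)
    choose y hy using hD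
    have hD0 : (D : ℤ) ≠ 0 := nonZeroDivisors.coe_ne_zero D
    have hyy : (fun i => (y i : ℚ)) = ((D : ℤ) : ℚ) • c ⟨k, hk⟩ := by
      ext i
      have := hy i
      simpa using this
    have h1 : y ∈ U8 := by
      refine ⟨Pi.single ⟨k, hk⟩ D, 0, ?_⟩
      rw [hyy, Finset.sum_eq_single ⟨k, hk⟩]
      · ext i; simp
      · intro l _ hl
        simp [hl]
      · simp
    have h2 : y ∈ W := by
      intro j
      have h3 : ((v j ⬝ᵥ y : ℤ) : ℚ) = 0 := by
        rw [cast_dot, hyy, dotProduct_smul, ← hcv j, hc]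
        have : Fin.castLE hk.le j ≠ ⟨k, hk⟩ := by
          intro h
          have := congrArg Fin.val h
          simp at this
          omega
        simp [this]
      exact_mod_cast h3
    obtain ⟨x, hx⟩ := husp _ h1 h2
    by_contra hn
    obtain rfl : n = 0 := by omega
    have h3 : y = 0 := by simpa using hx
    have h4 : ((y ⬝ᵥ y : ℤ) : ℚ) = ((D : ℤ) : ℚ) * (((D : ℤ) : ℚ) * lam) := by
      rw [cast_dot, hyy, dotProduct_smul, smul_dotProduct, hc]; simp
    rw [h3] at h4
    have h5 : ((D : ℤ) : ℚ) ≠ 0 := by exact_mod_cast hD0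
    simp [h5, hl] at h4
  obtain ⟨x, hx⟩ := represents_one n hn1 hn6 G hGs hpos hdet
  refine ⟨∑ j, x j • u j, ?_, ?_⟩
  · rw [← hG2, hx, mul_one]
  · intro i
    simp only [dotProduct_sum, dotProduct_smul, huW, smul_zero, Finset.sum_const_zero]

/-- A rational (indeed integral) orthogonal frame of any positive integral norm in dimension 8. -/
lemma exists_frame (lam : ℤ) (hlam : 0 < lam) :
    ∃ c0 : Fin 8 → Fin 8 → ℚ, ∀ i j, c0 i ⬝ᵥ c0 j = if i = j then (lam : ℚ) else 0 := by
  obtain ⟨a, b, c, d, h⟩ := Nat.sum_four_squares lam.toNat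
  have h1 : (lam : ℚ) = (a : ℚ) ^ 2 + (b : ℚ) ^ 2 + (c : ℚ) ^ 2 + (d : ℚ) ^ 2 := by
    have h2 : ((lam.toNat : ℤ)) = lam := Int.toNat_of_nonneg hlam.le
    rw [← h2, ← h]; push_cast; ring
  generalize (a : ℚ) = a at h1
  generalize (b : ℚ) = b at h1
  generalize (c : ℚ) = c at h1
  generalize (d : ℚ) = d at h1
  refine ⟨![![a, -b, -c, -d, 0, 0, 0, 0], ![b, a, -d, c, 0, 0, 0, 0], ![c, d, a, -b, 0, 0, 0, 0],
    ![d, -c, b, a, 0, 0, 0, 0], ![0, 0, 0, 0, a, -b, -c, -d], ![0, 0, 0, 0, b, a, -d, c],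
    ![0, 0, 0, 0, c, d, a, -b], ![0, 0, 0, 0, d, -c, b, a]], ?_⟩
  intro i j
  rw [h1]
  fin_cases i <;> fin_cases j <;> simp [dotProduct, Fin.sum_univ_succ] <;> ring

/-- One-step extension in dimension 8. -/
lemma extend_one {k : ℕ} (hk1 : 1 ≤ k) (hk : k < 8) (lam : ℤ) (hlam : 0 < lam)
    (v : Fin k → Fin 8 → ℤ) (hv : ∀ i j, v i ⬝ᵥ v j = if i = j then lam else 0) :
    ∃ u : Fin 8 → ℤ, u ⬝ᵥ u = lam ∧ ∀ i, v i ⬝ᵥ u = 0 := by
  rcases Nat.lt_or_ge k 2 with h | h
  · obtain rfl : k = 1 := by omega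
    have h0 := hv 0 0
    refine ⟨![-v 0 1, v 0 0, -v 0 3, v 0 2, -v 0 5, v 0 4, -v 0 7, v 0 6], ?_, ?_⟩
    · simp [dotProduct, Fin.sum_univ_succ] at h0 ⊢
      linarith
    · intro i
      obtain rfl : i = 0 := Subsingleton.elim _ _
      simp [dotProduct, Fin.sum_univ_succ]
      ring
  · obtain ⟨c0, hc0⟩ := exists_frame lam hlam
    exact extend_of_frame hk (by omega) lam hlam c0 hc0 v hv

end Pool.Agent.P.MP_710d87_nt
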