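import Mathlib

/-!
Fraction-free Hermite reduction for integral positive definite forms, and the consequence that a
unimodular positive definite integral form of rank between 1 and 6 represents 1.
-/

namespace Pool.Agent.P.MP_710d87_nt

open Matrix Module

/-- A vector with a Bezout relation is the first column of a unimodular matrix. -/
lemma exists_unimodular_col {n : ℕ} (x c : Fin (n + 1) → ℤ) (hc : c ⬝ᵥ x = 1) :
    ∃ P : Matrix (Fin (n + 1)) (Fin (n + 1)) ℤ, IsUnit P.det ∧ ∀ i, P i 0 = x i := by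
  classical
  let φ : (Fin (n + 1) → ℤ) →ₗ[ℤ] ℤ :=
    { toFun := fun y => c ⬝ᵥ y
      map_add' := fun y z => by simp [dotProduct_add]
      map_smul' := fun r y => dotProduct_smul r c y }
  have hφ : ∀ y, φ y = c ⬝ᵥ y := fun _ => rfl
  obtain ⟨m, b⟩ := Submodule.basisOfPid (Pi.basisFun ℤ (Fin (n + 1))) (LinearMap.ker φ)
  have hli : ∀ (r : ℤ), ∀ y ∈ LinearMap.ker φ, r • x + y = 0 → r = 0 := by
    intro r y hy h
    have h1 : φ (r • x + y) = 0 := by rw [h, map_zero]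
    rw [map_add, map_smul, LinearMap.mem_ker.mp hy, hφ, hc] at h1
    simpa using h1
  have hsp : ∀ z : Fin (n + 1) → ℤ, ∃ r : ℤ, z + r • x ∈ LinearMap.ker φ := by
    intro z
    refine ⟨-φ z, ?_⟩
    rw [LinearMap.mem_ker, map_add, map_smul, hφ x, hc]
    simp
  let B : Basis (Fin (m + 1)) ℤ (Fin (n + 1) → ℤ) := Basis.mkFinCons x b hli hsp
  have hm : m = n := by
    have h1 := Module.finrank_eq_card_basis B
    simp at h1
    omega
  subst hm
  refine ⟨(Pi.basisFun ℤ (Fin (m + 1))).toMatrix B, ?_, ?_⟩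
  · exact (Pi.basisFun ℤ (Fin (m + 1))).isUnit_det B
  · intro i
    simp [Basis.toMatrix_apply, B]

lemma form_transform {n : ℕ} (G P : Matrix (Fin n) (Fin n) ℤ) (y : Fin n → ℤ) :
    y ⬝ᵥ (Pᵀ * G * P) *ᵥ y = (P *ᵥ y) ⬝ᵥ G *ᵥ (P *ᵥ y) := by
  rw [← Matrix.mulVec_mulVec, ← Matrix.mulVec_mulVec, Matrix.dotProduct_mulVec, Matrix.vecMul_transpose]

/-- The reduction step when the first basis vector is a minimal vector. -/
lemma step_zero {n : ℕ} (G : Matrix (Fin (n + 1)) (Fin (n + 1)) ℤ) (hG : G.IsSymm) (a : ℤ)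
    (ha : 0 < a) (h0 : G 0 0 = a) (hmin : ∀ x : Fin (n + 1) → ℤ, x ≠ 0 → a ≤ x ⬝ᵥ G *ᵥ x) :
    ∃ G' : Matrix (Fin n) (Fin n) ℤ, G'.IsSymm ∧ a * G'.det = a ^ n * G.det ∧
      ∀ y : Fin n → ℤ, y ≠ 0 → ∃ s : ℤ, 2 * |s| ≤ a ∧ a ^ 2 - s ^ 2 ≤ y ⬝ᵥ G' *ᵥ y := by
  classical
  have hs : ∀ i j, G j i = G i j := fun i j => hG.apply i j
  let G' : Matrix (Fin n) (Fin n) ℤ :=
    Matrix.of fun i j => a * G i.succ j.succ - G 0 i.succ * G 0 j.succ
  refine ⟨G', ?_, ?_, ?_⟩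
  · ext i j
    simp only [G', Matrix.transpose_apply, Matrix.of_apply]
    rw [hs i.succ j.succ]; ring
  · let E : Matrix (Fin (n + 1)) (Fin (n + 1)) ℤ :=
      Matrix.of fun i j =>
        Fin.cases (Fin.cases 1 (fun j' => - G 0 j'.succ) j)
          (fun i' => Fin.cases 0 (fun j' => if i' = j' then a else 0) j) i
    have hE : E.det = a ^ n := by
      rw [Matrix.det_succ_column_zero, Fin.sum_univ_succ]
      have h1 : (E.submatrix (Fin.succAbove 0) Fin.succ) = Matrix.diagonal (fun _ => a) := by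
        ext i j
        simp [E, Matrix.diagonal_apply]
      rw [h1]
      simp [E]
    have hGE0 : (G * E) 0 0 = a := by
      simp [Matrix.mul_apply, Fin.sum_univ_succ, E, h0]
    have hGE1 : ∀ j : Fin n, (G * E) 0 j.succ = 0 := by
      intro j
      simp [Matrix.mul_apply, Fin.sum_univ_succ, E, h0]
      ring
    have hGE2 : ((G * E).submatrix Fin.succ (Fin.succAbove 0)) = G' := by
      ext i j
      simp [Matrix.mul_apply, Fin.sum_univ_succ, E, G', hs 0 i.succ]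
      ring
    have h2 : (G * E).det = a * G'.det := by
      rw [Matrix.det_succ_row_zero, Fin.sum_univ_succ, hGE2, hGE0]
      simp [hGE1]
    rw [← h2, Matrix.det_mul, hE]; ring
  · intro y hy
    set ρ : ℤ := ∑ i, G 0 i.succ * y i with hρ
    obtain ⟨t, ht⟩ : ∃ t : ℤ, 2 * |a * t + ρ| ≤ a := by
      refine ⟨-((2 * ρ + a) / (2 * a)), ?_⟩
      have h1 := Int.emod_nonneg (2 * ρ + a) (show (2 * a) ≠ 0 by omega)
      have h2 := Int.emod_lt_of_pos (2 * ρ + a) (show 0 < 2 * a by omega)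
      have h3 := Int.mul_ediv_add_emod (2 * ρ + a) (2 * a)
      set q := (2 * ρ + a) / (2 * a)
      set r := (2 * ρ + a) % (2 * a)
      have h4 : 2 * (a * -q + ρ) = r - a := by linarith
      rcases abs_cases (a * -q + ρ) with h | h <;> omega
    refine ⟨a * t + ρ, ht, ?_⟩
    have hx : (Fin.cons t y : Fin (n + 1) → ℤ) ≠ 0 := by
      intro h
      apply hy
      ext i
      have := congrFun h i.succ
      simpa using this
    have h1 := hmin _ hx
    set H : ℤ := ∑ i, y i * ∑ j, G i.succ j.succ * y j with hH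
    have h2 : (Fin.cons t y : Fin (n + 1) → ℤ) ⬝ᵥ G *ᵥ (Fin.cons t y) =
        a * t ^ 2 + 2 * t * ρ + H := by
      simp only [dotProduct, Matrix.mulVec, Fin.sum_univ_succ, Fin.cons_zero, Fin.cons_succ, h0]
      have h3 : ∑ i : Fin n, y i * (G i.succ 0 * t + ∑ j, G i.succ j.succ * y j) = t * ρ + H := by
        rw [hρ, hH, Finset.mul_sum, ← Finset.sum_add_distrib]
        refine Finset.sum_congr rfl fun i _ => ?_
        rw [hs 0 i.succ]; ring
      rw [h3, ← hρ]; ring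
    have h3 : y ⬝ᵥ G' *ᵥ y = a * H - ρ ^ 2 := by
      simp only [dotProduct, Matrix.mulVec, G', Matrix.of_apply]
      rw [hH, sq, hρ, Finset.sum_mul_sum, Finset.mul_sum, ← Finset.sum_sub_distrib]
      refine Finset.sum_congr rfl fun i _ => ?_
      rw [Finset.mul_sum, Finset.mul_sum, Finset.mul_sum, ← Finset.sum_sub_distrib]
      refine Finset.sum_congr rfl fun j _ => ?_
      ring
    rw [h3]
    rw [h2] at h1
    nlinarith

/-- The reduction step. -/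
lemma step {n : ℕ} (G : Matrix (Fin (n + 1)) (Fin (n + 1)) ℤ) (hG : G.IsSymm)
    (hpos : ∀ x : Fin (n + 1) → ℤ, x ≠ 0 → 0 < x ⬝ᵥ G *ᵥ x) :
    ∃ a : ℤ, (∃ x : Fin (n + 1) → ℤ, x ≠ 0 ∧ x ⬝ᵥ G *ᵥ x = a) ∧
      (∀ x : Fin (n + 1) → ℤ, x ≠ 0 → a ≤ x ⬝ᵥ G *ᵥ x) ∧
      ∃ G' : Matrix (Fin n) (Fin n) ℤ, G'.IsSymm ∧ a * G'.det = a ^ n * G.det ∧
        ∀ y : Fin n → ℤ, y ≠ 0 → ∃ s : ℤ, 2 * |s| ≤ a ∧ a ^ 2 - s ^ 2 ≤ y ⬝ᵥ G' *ᵥ y := by
  classical
  obtain ⟨a, ⟨x, hx, hxa⟩, hmin⟩ := Int.exists_least_of_bdd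
    (P := fun z => ∃ x : Fin (n + 1) → ℤ, x ≠ 0 ∧ x ⬝ᵥ G *ᵥ x = z)
    ⟨0, by rintro z ⟨x, hx, rfl⟩; exact (hpos x hx).le⟩
    ⟨_, fun _ => 1, by intro h; simpa using congrFun h 0, rfl⟩
  have hmin' : ∀ x : Fin (n + 1) → ℤ, x ≠ 0 → a ≤ x ⬝ᵥ G *ᵥ x := fun x hx => hmin _ ⟨x, hx, rfl⟩
  have ha : 0 < a := hxa ▸ hpos x hx
  refine ⟨a, ⟨x, hx, hxa⟩, hmin', ?_⟩
  -- the minimal vector is primitive
  obtain ⟨c, hc⟩ : ∃ c : Fin (n + 1) → ℤ, c ⬝ᵥ x = 1 := by
    obtain ⟨c, hc⟩ := Finset.gcd_eq_sum_mul (Finset.univ : Finset (Fin (n + 1))) x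
    set g := (Finset.univ : Finset (Fin (n + 1))).gcd x with hg
    have hdvd : ∀ i, g ∣ x i := fun i => Finset.gcd_dvd (Finset.mem_univ i)
    choose x' hx' using hdvd
    have hxx : x = g • x' := by ext i; simp [hx' i]
    have hx'0 : x' ≠ 0 := by
      intro h; apply hx; rw [hxx, h]; simp
    have hg0 : g ≠ 0 := by
      intro h; apply hx; rw [hxx, h]; simp
    have h1 := hmin' x' hx'0
    have h2 : x ⬝ᵥ G *ᵥ x = g ^ 2 * (x' ⬝ᵥ G *ᵥ x') := by
      conv_lhs => rw [hxx]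
      rw [Matrix.mulVec_smul, dotProduct_smul, smul_dotProduct]
      simp; ring
    have h3 : g ^ 2 ≤ 1 := by
      by_contra h
      push Not at h
      nlinarith
    have h4 : g ^ 2 = 1 := by
      have : 0 < g ^ 2 := by positivity
      omega
    refine ⟨g • c, ?_⟩
    rw [smul_dotProduct, dotProduct_comm]
    simp only [dotProduct, smul_eq_mul]
    rw [← hc, ← sq, h4]
  obtain ⟨P, hP, hP0⟩ := exists_unimodular_col x c hc
  have hinj : ∀ y : Fin (n + 1) → ℤ, y ≠ 0 → P *ᵥ y ≠ 0 := by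
    intro y hy h
    exact hy (Matrix.eq_zero_of_mulVec_eq_zero hP.ne_zero h)
  have hsym : (Pᵀ * G * P).IsSymm := by
    unfold Matrix.IsSymm
    rw [Matrix.transpose_mul, Matrix.transpose_mul, Matrix.transpose_transpose, hG.eq,
      Matrix.mul_assoc]
  have h00 : (Pᵀ * G * P) 0 0 = a := by
    have h1 := form_transform G P (Pi.single 0 1)
    have h2 : P *ᵥ (Pi.single 0 1) = x := by
      ext i; simp [hP0]
    rw [h2, hxa] at h1
    simpa using h1
  obtain ⟨G', h1, h2, h3⟩ := step_zero (Pᵀ * G * P) hsym a ha h00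
    (fun y hy => by rw [form_transform]; exact hmin' _ (hinj y hy))
  refine ⟨G', h1, ?_, h3⟩
  rw [h2, Matrix.det_mul, Matrix.det_mul, Matrix.det_transpose]
  have h4 : P.det * P.det = 1 := by
    rcases Int.isUnit_iff.mp hP with h | h <;> simp [h]
  congr 1
  linear_combination G.det * h4

/-- Hermite's inequality. -/
lemma hermite : ∀ (n : ℕ) (G : Matrix (Fin n) (Fin n) ℤ) (m : ℚ), G.IsSymm → 0 < m →
    (∀ x : Fin n → ℤ, x ≠ 0 → m ≤ ((x ⬝ᵥ G *ᵥ x : ℤ) : ℚ)) →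
    (3 / 4 : ℚ) ^ (n.choose 2) * m ^ n ≤ (G.det : ℚ) := by
  intro n
  induction n with
  | zero => intro G m _ _ _; simp
  | succ n ih =>
    intro G m hG hm h
    obtain ⟨a, ⟨x, hx, hxa⟩, -, G', hG', hdet, hG'min⟩ := step G hG (fun x hx => by
      have := h x hx
      exact_mod_cast lt_of_lt_of_le hm this)
    have hma : m ≤ (a : ℚ) := hxa ▸ h x hx
    have ha : (0 : ℚ) < a := lt_of_lt_of_le hm hma
    have h1 := ih G' (3 / 4 * (a : ℚ) ^ 2) hG' (by positivity) (fun y hy => by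
      obtain ⟨s, hs1, hs2⟩ := hG'min y hy
      have hs3 : 4 * s ^ 2 ≤ a ^ 2 := by
        have := abs_nonneg s
        rw [← sq_abs s]; nlinarith
      have hs4 : 3 * a ^ 2 ≤ 4 * (y ⬝ᵥ G' *ᵥ y) := by linarith
      have hs5 : (3 * (a : ℚ) ^ 2) ≤ 4 * ((y ⬝ᵥ G' *ᵥ y : ℤ) : ℚ) := by exact_mod_cast hs4
      linarith)
    have hdet' : (a : ℚ) * G'.det = (a : ℚ) ^ n * G.det := by exact_mod_cast hdet
    have h2 : (n + 1).choose 2 = n.choose 2 + n := by
      rw [Nat.choose_succ_succ' n 1]; simp [add_comm]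
    have h3 : (a : ℚ) ^ n * ((3 / 4 : ℚ) ^ ((n + 1).choose 2) * (a : ℚ) ^ (n + 1)) ≤
        (a : ℚ) ^ n * G.det := by
      rw [← hdet', h2]
      calc (a : ℚ) ^ n * ((3 / 4 : ℚ) ^ (n.choose 2 + n) * (a : ℚ) ^ (n + 1))
          = a * ((3 / 4 : ℚ) ^ (n.choose 2) * (3 / 4 * (a : ℚ) ^ 2) ^ n) := by
            rw [mul_pow, ← pow_mul, pow_add]; ring
        _ ≤ a * G'.det := by gcongr
    have h4 := le_of_mul_le_mul_left h3 (by positivity)
    calc (3 / 4 : ℚ) ^ ((n + 1).choose 2) * m ^ (n + 1)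
        ≤ (3 / 4 : ℚ) ^ ((n + 1).choose 2) * (a : ℚ) ^ (n + 1) := by gcongr
      _ ≤ _ := h4

lemma hermite_int (n : ℕ) (G : Matrix (Fin n) (Fin n) ℤ) (m : ℤ) (hG : G.IsSymm) (hm : 0 < m)
    (h : ∀ x : Fin n → ℤ, x ≠ 0 → m ≤ x ⬝ᵥ G *ᵥ x) :
    (3 / 4 : ℚ) ^ (n.choose 2) * (m : ℚ) ^ n ≤ (G.det : ℚ) :=
  hermite n G m hG (by exact_mod_cast hm) (fun x hx => by exact_mod_cast h x hx)

/-- A unimodular positive definite integral form of rank between 1 and 6 represents 1. -/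
lemma represents_one (n : ℕ) (hn1 : 1 ≤ n) (hn6 : n ≤ 6) (G : Matrix (Fin n) (Fin n) ℤ)
    (hG : G.IsSymm) (hpos : ∀ x : Fin n → ℤ, x ≠ 0 → 0 < x ⬝ᵥ G *ᵥ x) (hdet : G.det = 1) :
    ∃ x : Fin n → ℤ, x ⬝ᵥ G *ᵥ x = 1 := by
  by_contra hcon
  push Not at hcon
  have h2 : ∀ x : Fin n → ℤ, x ≠ 0 → 2 ≤ x ⬝ᵥ G *ᵥ x := fun x hx => by
    have := hpos x hx
    have := hcon x
    omega
  rcases Nat.lt_or_ge n 6 with hn | hn
  · have h := hermite_int n G 2 hG (by norm_num) h2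
    rw [hdet] at h
    interval_cases n <;> norm_num [Nat.choose] at h
  · obtain rfl : n = 6 := by omega
    obtain ⟨a, ⟨x, hx, hxa⟩, hmin, G', hG', hdet', hG'min⟩ := step G hG hpos
    have ha2 : 2 ≤ a := hxa ▸ h2 x hx
    rcases lt_or_eq_of_le ha2 with ha | ha
    · have h := hermite_int 6 G 3 hG (by norm_num) (fun y hy => le_trans ha (hmin y hy))
      rw [hdet] at h
      norm_num [Nat.choose] at h
    subst ha
    have hd' : G'.det = 16 := by rw [hdet] at hdet'; omega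
    have h3 : ∀ y : Fin 5 → ℤ, y ≠ 0 → 3 ≤ y ⬝ᵥ G' *ᵥ y := fun y hy => by
      obtain ⟨s, hs1, hs2⟩ := hG'min y hy
      have := abs_nonneg s
      have h5 : s ^ 2 ≤ 1 := by rw [← sq_abs s]; nlinarith
      linarith
    obtain ⟨b, ⟨y, hy, hyb⟩, hmin', G'', hG'', hdet'', hG''min⟩ :=
      step G' hG' (fun y hy => by linarith [h3 y hy])
    have hb3 : 3 ≤ b := hyb ▸ h3 y hy
    rcases lt_or_eq_of_le hb3 with hb | hb
    · have h := hermite_int 5 G' 4 hG' (by norm_num) (fun y hy => le_trans hb (hmin' y hy))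
      rw [hd'] at h
      norm_num [Nat.choose] at h
    subst hb
    have hd'' : G''.det = 432 := by rw [hd'] at hdet''; omega
    have h := hermite_int 4 G'' 8 hG'' (by norm_num) (fun z hz => by
      obtain ⟨s, hs1, hs2⟩ := hG''min z hz
      have := abs_nonneg s
      have h6 : |s| ≤ 1 := by omega
      have h5 : s ^ 2 ≤ 1 := by rw [← sq_abs s]; nlinarith
      linarith)
    rw [hd''] at h
    norm_num [Nat.choose] at h

end Pool.Agent.P.MP_710d87_nt
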