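import Pool.Agent.P.MP_710d87_nt.Hermite

/-!
Witt extension over the rationals, and the self-dual lattice attached to a rational frame.
-/

namespace Pool.Agent.P.MP_710d87_nt

open Matrix Module

/-- Witt extension: a rational orthogonal frame of norm `lam` can be moved so that it starts
with a given orthogonal family of norm `lam`. -/
lemma witt {N k : ℕ} (hk : k ≤ N) (lam : ℚ) (c0 : Fin N → Fin N → ℚ)
    (hc0 : ∀ i j, c0 i ⬝ᵥ c0 j = if i = j then lam else 0) (v : Fin k → Fin N → ℚ)
    (hv : ∀ i j, v i ⬝ᵥ v j = if i = j then lam else 0) :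
    ∃ c : Fin N → Fin N → ℚ, (∀ i j, c i ⬝ᵥ c j = if i = j then lam else 0) ∧
      ∀ j : Fin k, c (Fin.castLE hk j) = v j := by
  suffices h : ∀ m : ℕ, m ≤ k → ∃ c : Fin N → Fin N → ℚ,
      (∀ i j, c i ⬝ᵥ c j = if i = j then lam else 0) ∧
      ∀ j : Fin k, j.val < m → c (Fin.castLE hk j) = v j by
    obtain ⟨c, h1, h2⟩ := h k le_rfl
    exact ⟨c, h1, fun j => h2 j j.2⟩
  intro m
  induction m with
  | zero => intro _; exact ⟨c0, hc0, fun j hj => absurd hj (Nat.not_lt_zero _)⟩
  | succ m ih =>
    intro hm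
    obtain ⟨c, h1, h2⟩ := ih (by omega)
    let j0 : Fin k := ⟨m, hm⟩
    set x := c (Fin.castLE hk j0) with hx
    set d := x - v j0 with hd
    by_cases hd0 : d = 0
    · refine ⟨c, h1, fun j hj => ?_⟩
      rcases Nat.lt_succ_iff_lt_or_eq.mp hj with h | h
      · exact h2 j h
      · have : j = j0 := Fin.ext h
        rw [this, ← hx]
        exact sub_eq_zero.mp hd0
    · have hdd : d ⬝ᵥ d ≠ 0 := fun h => hd0 (dotProduct_self_eq_zero.mp h)
      refine ⟨fun i => c i - (2 * (d ⬝ᵥ c i) / (d ⬝ᵥ d)) • d, fun i j => ?_, fun j hj => ?_⟩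
      · rw [← h1 i j]
        simp only [sub_dotProduct, dotProduct_sub, smul_dotProduct, dotProduct_smul, smul_eq_mul]
        rw [dotProduct_comm (c i) d]
        field_simp
        ring
      · rcases Nat.lt_succ_iff_lt_or_eq.mp hj with h | h
        · have hne : j0 ≠ j := by
            intro h'
            have := congrArg Fin.val h'
            simp [j0] at this
            omega
          have h3 : d ⬝ᵥ c (Fin.castLE hk j) = 0 := by
            rw [hd, sub_dotProduct, hx, h1, h2 j h, hv]
            simp [hne]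
          simp only [h3]
          simp [h2 j h]
        · have : j = j0 := Fin.ext h
          subst this
          have hxx : x ⬝ᵥ x = lam := by rw [hx, h1]; simp
          have hvv : v j0 ⬝ᵥ v j0 = lam := by rw [hv]; simp
          have h3 : 2 * (d ⬝ᵥ x) = d ⬝ᵥ d := by
            rw [hd]
            simp only [sub_dotProduct, dotProduct_sub]
            rw [hxx, hvv, dotProduct_comm x (v j0)]
            ring
          simp only [← hx]
          rw [h3, div_self hdd, one_smul, hd]
          simp

/-- Expansion of a vector in an orthogonal frame. -/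
lemma frame_expand {N : ℕ} (lam : ℚ) (hlam : lam ≠ 0) (c : Fin N → Fin N → ℚ)
    (hc : ∀ i j, c i ⬝ᵥ c j = if i = j then lam else 0) (y : Fin N → ℚ) :
    y = ∑ j, ((y ⬝ᵥ c j) / lam) • c j := by
  classical
  let C : Matrix (Fin N) (Fin N) ℚ := Matrix.of c
  have h1 : (lam⁻¹ • C) * Cᵀ = 1 := by
    ext i j
    have := hc i j
    simp only [dotProduct] at this
    rw [Matrix.smul_mul]
    simp only [Matrix.smul_apply, Matrix.mul_apply, Matrix.transpose_apply, C,
      Matrix.of_apply, this, Matrix.one_apply, smul_eq_mul]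
    split_ifs
    · exact inv_mul_cancel₀ hlam
    · simp
  have h2 : Cᵀ * (lam⁻¹ • C) = 1 := mul_eq_one_comm.mp h1
  ext i
  have h3 : ∀ l, ∑ j, c j i * (lam⁻¹ * c j l) = if i = l then 1 else 0 := by
    intro l
    have := congrFun (congrFun h2 i) l
    simpa [Matrix.mul_apply, C, Matrix.one_apply] using this
  simp only [Finset.sum_apply, Pi.smul_apply, smul_eq_mul, dotProduct]
  calc y i = ∑ l, y l * (if i = l then 1 else 0) := by simp
    _ = ∑ l, ∑ j, y l * (c j i * (lam⁻¹ * c j l)) := by
        refine Finset.sum_congr rfl fun l _ => ?_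
        rw [← h3 l, Finset.mul_sum]
    _ = ∑ j, ∑ l, y l * (c j i * (lam⁻¹ * c j l)) := Finset.sum_comm
    _ = _ := by
        refine Finset.sum_congr rfl fun j _ => ?_
        rw [Finset.sum_div, Finset.sum_mul]
        refine Finset.sum_congr rfl fun l _ => ?_
        field_simp

/-- The double dual step. -/
lemma double_dual {N : ℕ} (lam : ℤ) (hlam : 0 < lam) (c : Fin N → Fin N → ℚ)
    (hc : ∀ i j, c i ⬝ᵥ c j = if i = j then (lam : ℚ) else 0) (z : Fin N → ℚ)
    (hz : ∀ y m : Fin N → ℤ, (fun i => (y i : ℚ)) = ∑ j, (m j : ℚ) • c j →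
      ∃ t : ℤ, z ⬝ᵥ (fun i => (y i : ℚ)) = lam * t) :
    ∃ m m' : Fin N → ℤ, z = ∑ j, (m j : ℚ) • c j + fun i => (lam : ℚ) * m' i := by
  classical
  have hl : (lam : ℚ) ≠ 0 := by exact_mod_cast hlam.ne'
  let B : LinearMap.BilinForm ℚ (Fin N → ℚ) :=
    LinearMap.mk₂ ℚ (fun x y => (x ⬝ᵥ y) / lam)
      (fun x y z => by rw [add_dotProduct, add_div])
      (fun r x y => by rw [smul_dotProduct, smul_eq_mul, smul_eq_mul, mul_div_assoc])
      (fun x y z => by rw [dotProduct_add, add_div])
      (fun r x y => by rw [dotProduct_smul, smul_eq_mul, smul_eq_mul, mul_div_assoc])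
  have hB : ∀ x y, B x y = (x ⬝ᵥ y) / lam := fun _ _ => rfl
  have hBs : B.IsSymm := ⟨fun x y => by rw [hB, hB, dotProduct_comm]⟩
  have hBn : B.Nondegenerate := by
    constructor
    · intro x hx
      have := hx x
      rw [hB, div_eq_zero_iff] at this
      exact dotProduct_self_eq_zero.mp (this.resolve_right hl)
    · intro x hx
      have := hx x
      rw [hB, div_eq_zero_iff] at this
      exact dotProduct_self_eq_zero.mp (this.resolve_right hl)
  let w : Fin N ⊕ Fin N → (Fin N → ℚ) := Sum.elim c (fun j => Pi.single j (lam : ℚ))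
  let S : Submodule ℤ (Fin N → ℚ) := Submodule.span ℤ (Set.range w)
  have : Submodule.IsLattice ℚ S :=
    { fg := Submodule.fg_span (Set.finite_range w)
      span_eq_top := by
        rw [eq_top_iff]
        intro y _
        rw [frame_expand (lam : ℚ) hl c hc y]
        refine Submodule.sum_mem _ fun j _ => Submodule.smul_mem _ _ ?_
        exact Submodule.subset_span (Submodule.subset_span ⟨Sum.inl j, rfl⟩) }
  let b0 := Module.Free.chooseBasis ℤ S
  let b := b0.extendOfIsLattice ℚ
  have hbS : Submodule.span ℤ (Set.range b) = S := by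
    have h1 : (b : _ → _) = S.subtype ∘ b0 := by
      ext k i; simp [b]
    rw [h1, Set.range_comp, ← Submodule.map_span, b0.span_eq, Submodule.map_subtype_top]
  have hzS : z ∈ S := by
    rw [← hbS, ← LinearMap.BilinForm.dualSubmodule_dualSubmodule_of_basis B hBn hBs b, hbS,
      LinearMap.BilinForm.mem_dualSubmodule]
    intro y hy
    rw [LinearMap.BilinForm.mem_dualSubmodule] at hy
    have h1 : ∀ i, ∃ t : ℤ, (t : ℚ) = y i := by
      intro i
      have := Submodule.mem_one.mp (hy _ (Submodule.subset_span ⟨Sum.inr i, rfl⟩))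
      obtain ⟨t, ht⟩ := this
      refine ⟨t, ?_⟩
      rw [hB] at ht
      simp only [w, Sum.elim_inr, dotProduct_single] at ht
      rw [mul_div_assoc, div_self hl, mul_one] at ht
      simpa using ht
    have h2 : ∀ j, ∃ t : ℤ, (t : ℚ) = (y ⬝ᵥ c j) / lam := by
      intro j
      have := Submodule.mem_one.mp (hy _ (Submodule.subset_span ⟨Sum.inl j, rfl⟩))
      obtain ⟨t, ht⟩ := this
      exact ⟨t, by simpa [hB, w] using ht⟩
    choose y' hy' using h1
    choose m hm using h2
    have hyy : (fun i => (y' i : ℚ)) = y := funext hy'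
    obtain ⟨t, ht⟩ := hz y' m (by
      rw [hyy]
      simp only [hm]
      exact frame_expand (lam : ℚ) hl c hc y)
    rw [Submodule.mem_one]
    refine ⟨t, ?_⟩
    rw [hB, ← hyy, ht]
    field_simp
    simp
  obtain ⟨f, hf⟩ := (Submodule.mem_span_range_iff_exists_fun ℤ).mp hzS
  refine ⟨fun j => f (Sum.inl j), fun j => f (Sum.inr j), ?_⟩
  rw [← hf, Fintype.sum_sum_type]
  ext i
  simp [w, Finset.sum_apply, Pi.single_apply, mul_comm]

end Pool.Agent.P.MP_710d87_nt
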